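import Pool.Agent.X160.Nth

/-!
# MP_6fbbc1_co: the 24-cell, the 120-cell and the 600-cell are not all-net

A convex 4-polytope is given by the set `S` of its outer facet normals and the common offset
`c`: `polytope S c = {x | ⟪n, x⟫ ≤ c for all n ∈ S}`; its facets are indexed by `S`.

* 24-cell: the normals are `±2eᵢ` and `(±1, ±1, ±1, ±1)`, with `c = 2`; the polytope is the convex
  hull of the 24 vectors obtained from `(±1, ±1, 0, 0)` by permutations.
* 120-cell: the normals are the 120 vertices of the 600-cell of circumradius 2 (the 24 vectors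
  above and the 96 even permutations of `(±φ, ±1, ±φ⁻¹, 0)`), with `c = 4 + 6φ`.
* 600-cell (with these 120 vertices): its 600 facets are the tetrahedra spanned by four mutually
  nearest vertices `a, b, c, d` (mutual inner products `2φ`), the facet has the normal
  `a + b + c + d`, again with offset `4 + 6φ`.

`result` says that each of them has a ridge unfolding in which two facet images overlap.
The unfoldings were found by computer: chains of 8 (24-cell), 6 (120-cell) and 8 (600-cell)
facets whose first and last images overlap, completed to a spanning tree of the dual graph.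
-/

namespace Pool.Agent.Results.MP_6fbbc1_co.NoneAllNet

open Pool.Agent.X160

/-- Euclidean 4-space. -/
abbrev E : Type := EuclideanSpace ℝ (Fin 4)

/-- The polytope with outer facet normals `S` and offset `c`. -/
def polytope (S : Set E) (c : ℝ) : Set E := {x | ∀ n ∈ S, inner ℝ n x ≤ c}

/-- The facet with outer normal `n`. -/
def facet (S : Set E) (c : ℝ) (n : E) : Set E := {x | x ∈ polytope S c ∧ inner ℝ n x = c}

/-- The dual graph: two facets are adjacent if they share a ridge, i.e. if their intersection
contains three affinely independent points. -/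
def dualGraph (S : Set E) (c : ℝ) : SimpleGraph S where
  Adj m n := m ≠ n ∧ ∃ x y z : E, x ∈ facet S c m ∩ facet S c n ∧
    y ∈ facet S c m ∩ facet S c n ∧ z ∈ facet S c m ∩ facet S c n ∧
    AffineIndependent ℝ ![x, y, z]
  symm := ⟨by
    rintro i j ⟨h, x, y, z, hx, hy, hz, ha⟩
    exact ⟨h.symm, x, y, z, hx.symm, hy.symm, hz.symm, ha⟩⟩
  loopless := ⟨fun i h => h.1 rfl⟩

/-- `g` is the ridge unfolding of the polytope along the spanning tree `T` of the dual graph,
developed into the hyperplane of the root facet `r`: each facet `m` is placed by an isometry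
`g m` that maps its hyperplane into the hyperplane of `r`; for two facets adjacent in `T` the
placements agree on the common ridge, and the two images lie on opposite sides of the image of
the plane of the ridge (the segment between any two of their points meets that plane). -/
structure IsRidgeUnfolding (S : Set E) (c : ℝ) (T : SimpleGraph S) (r : S) (g : S → E → E) :
    Prop where
  tree : T.IsTree
  le : T ≤ dualGraph S c
  isometry : ∀ m, Isometry (g m)
  hyperplane : ∀ (m : S) (x : E), inner ℝ (m : E) x = c → inner ℝ (r : E) (g m x) = c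
  agree : ∀ m n : S, T.Adj m n → ∀ x ∈ facet S c m ∩ facet S c n, g m x = g n x
  opposite : ∀ m n : S, T.Adj m n → ∀ x ∈ facet S c m, ∀ y ∈ facet S c n,
    ∃ z, inner ℝ (m : E) z = c ∧ inner ℝ (n : E) z = c ∧ g m z ∈ segment ℝ (g m x) (g n y)

/-- Every ridge unfolding is a net: the relative interiors of the images of distinct facets are
disjoint. -/
def IsAllNet (S : Set E) (c : ℝ) : Prop :=
  ∀ (T : SimpleGraph S) (r : S) (g : S → E → E), IsRidgeUnfolding S c T r g →
    ∀ m n : S, m ≠ n → Disjoint (g m '' intrinsicInterior ℝ (facet S c m))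
      (g n '' intrinsicInterior ℝ (facet S c n))

/-- The 24 vectors `±2eᵢ` and `(±1, ±1, ±1, ±1)`. -/
def normals24 : Set E :=
  {x | (∃ i, (x i = 2 ∨ x i = -2) ∧ ∀ j, j ≠ i → x j = 0) ∨ ∀ i, x i = 1 ∨ x i = -1}

/-- The 24 vectors of `normals24` and the 96 even permutations of `(±φ, ±1, ±φ⁻¹, 0)`: the 120
vertices of the 600-cell. -/
def normals120 : Set E :=
  normals24 ∪ {x | ∃ σ : Equiv.Perm (Fin 4), Equiv.Perm.sign σ = 1 ∧
    (x (σ 0) = Real.goldenRatio ∨ x (σ 0) = -Real.goldenRatio) ∧
    (x (σ 1) = 1 ∨ x (σ 1) = -1) ∧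
    (x (σ 2) = Real.goldenRatio⁻¹ ∨ x (σ 2) = -Real.goldenRatio⁻¹) ∧ x (σ 3) = 0}

/-- The sums of four mutually nearest vertices of the 600-cell. -/
def normals600 : Set E := {x | ∃ a ∈ normals120, ∃ b ∈ normals120, ∃ c ∈ normals120,
  ∃ d ∈ normals120,
  inner ℝ a b = 2 * Real.goldenRatio ∧ inner ℝ a c = 2 * Real.goldenRatio ∧
  inner ℝ a d = 2 * Real.goldenRatio ∧ inner ℝ b c = 2 * Real.goldenRatio ∧
  inner ℝ b d = 2 * Real.goldenRatio ∧ inner ℝ c d = 2 * Real.goldenRatio ∧
  x = a + b + c + d}

theorem facet_eq (S : Set E) (c : ℝ) (m : S) :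
    Nta.Facet (fun x : S => (x : E)) c m = facet S c m := by
  ext x
  constructor
  · rintro ⟨h1, h2⟩
    exact ⟨fun n hn => h2 ⟨n, hn⟩, h1⟩
  · rintro ⟨h1, h2⟩
    exact ⟨h2, fun n => h1 n n.2⟩

theorem transfer {S : Set E} {c : ℝ} (h : ¬ Nta.IsAllNet (fun x : S => (x : E)) c) :
    ¬ IsAllNet S c := by
  intro hall
  apply h
  intro T r g hU m n hmn
  have h1 : IsRidgeUnfolding S c T r g := by
    refine ⟨hU.tree, ?_, hU.isom, hU.root, ?_, ?_⟩
    · intro a b hab
      obtain ⟨h3, x, y, z, hx, hy, hz, ha⟩ := hU.le hab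
      rw [facet_eq, facet_eq] at hx hy hz
      exact ⟨h3, x, y, z, hx, hy, hz, ha⟩
    · intro a b hab x hx
      rw [← facet_eq, ← facet_eq] at hx
      exact hU.agree a b hab x hx
    · intro a b hab x hx y hy
      rw [← facet_eq] at hx hy
      exact hU.opp a b hab x hx y hy
  have h2 := hall T r g h1 m n hmn
  rw [← facet_eq, ← facet_eq] at h2
  exact h2

/-- None of the 24-cell, the 120-cell and the 600-cell is all-net. -/
theorem result : ¬ IsAllNet normals24 2 ∧
    ¬ IsAllNet normals120 (4 + 6 * Real.goldenRatio) ∧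
    ¬ IsAllNet normals600 (4 + 6 * Real.goldenRatio) :=
  ⟨transfer Nta.set24, transfer Nta.set120, transfer Nta.set600⟩

end Pool.Agent.Results.MP_6fbbc1_co.NoneAllNet
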